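import Pool.Agent.X96.SS.T2

set_option autoImplicit false

open MeasureTheory Metric Set Filter Topology
open scoped ENNReal NNReal ContDiff InnerProductSpace

namespace Pool.Agent.X96.SS

/-- the half line -/
noncomputable abbrev mm : Measure ℝ := volume.restrict (Ioi (0:ℝ))

/-- the Hilbert space -/
noncomputable abbrev L2 := Lp ℝ 2 mm

/-- the weight -/
noncomputable def wt (n : ℕ) (t : ℝ) : ℝ := √(t ^ (n - 1))

lemma wt_meas (n : ℕ) : Measurable (wt n) := by unfold wt; fun_prop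

lemma wt_pos {n : ℕ} {t : ℝ} (ht : 0 < t) : 0 < wt n t := Real.sqrt_pos.mpr (by positivity)

lemma wt_sq {n : ℕ} {t : ℝ} (ht : 0 < t) : wt n t ^ 2 = t ^ (n - 1) :=
  Real.sq_sqrt (by positivity)

/-- the derivative -/
noncomputable def pp (n : ℕ) (P : L2) (t : ℝ) : ℝ := P t / wt n t

lemma pp_meas (n : ℕ) (P : L2) : Measurable (pp n P) :=
  (Lp.stronglyMeasurable P).measurable.div (wt_meas n)

lemma pp_sq {n : ℕ} (P : L2) {t : ℝ} (ht : 0 < t) : t ^ (n - 1) * pp n P t ^ 2 = P t ^ 2 := by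
  unfold pp
  have h := wt_pos (n := n) ht
  rw [← wt_sq ht]
  field_simp

lemma pp_PD (n : ℕ) (P : L2) : PD n (pp n P) := by
  refine ⟨pp_meas n P, ?_⟩
  have h : IntegrableOn (fun t => P t ^ 2) (Ioi 0) := (Lp.memLp P).integrable_sq
  exact h.congr_fun (fun t ht => (pp_sq P ht).symm) measurableSet_Ioi

/-- the function -/
noncomputable def fP (n : ℕ) (P : L2) : ℝ → ℝ := prim (pp n P)

lemma fP_meas (n : ℕ) (P : L2) : Measurable (fP n P) := prim_meas (pp_meas n P)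

lemma ker_memLp {n : ℕ} (hn : 3 ≤ n) {r : ℝ} (hr : 0 < r) :
    MemLp ((Ioi r).indicator fun t => -(wt n t)⁻¹) 2 mm := by
  have hm : Measurable ((Ioi r).indicator fun t => -(wt n t)⁻¹) :=
    ((wt_meas n).inv.neg).indicator measurableSet_Ioi
  rw [memLp_two_iff_integrable_sq hm.aestronglyMeasurable]
  have h1 := (tail_int hn hr).1
  have h2 : Integrable ((Ioi r).indicator fun t : ℝ => (t ^ (n - 1))⁻¹) :=
    (integrable_indicator_iff measurableSet_Ioi).mpr h1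
  refine (h2.mono_measure Measure.restrict_le_self).congr (Eventually.of_forall fun t => ?_)
  by_cases ht : t ∈ Ioi r
  · simp only [indicator_of_mem ht]
    rw [neg_sq, inv_pow, wt_sq (hr.trans ht)]
  · simp [indicator_of_notMem ht]

/-- the kernel -/
noncomputable def ker (n : ℕ) (hn : 3 ≤ n) (r : ℝ) (hr : 0 < r) : L2 := (ker_memLp hn hr).toLp

lemma ker_norm {n : ℕ} (hn : 3 ≤ n) {r : ℝ} (hr : 0 < r) :
    ‖ker n hn r hr‖ ^ 2 ≤ (r ^ (n - 2))⁻¹ := by
  rw [← real_inner_self_eq_norm_sq, L2.inner_def]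
  refine le_trans (le_of_eq ?_) (tail_int hn hr).2
  have h0 := (ker_memLp hn hr).coeFn_toLp
  have h1 : ∫ t, ⟪(ker n hn r hr : ℝ → ℝ) t, (ker n hn r hr : ℝ → ℝ) t⟫_ℝ ∂mm
      = ∫ t, (Ioi r).indicator (fun t : ℝ => (t ^ (n - 1))⁻¹) t ∂mm := by
    refine integral_congr_ae ?_
    filter_upwards [h0] with t ht
    have : (ker n hn r hr : ℝ → ℝ) t = (Ioi r).indicator (fun t => -(wt n t)⁻¹) t := ht
    rw [this]
    by_cases ht : t ∈ Ioi r
    · simp only [indicator_of_mem ht, real_inner_self_eq_norm_sq, Real.norm_eq_abs, sq_abs]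
      rw [neg_sq, inv_pow, wt_sq (hr.trans ht)]
    · simp [indicator_of_notMem ht]
  rw [h1, integral_indicator measurableSet_Ioi, Measure.restrict_restrict measurableSet_Ioi]
  congr 2
  exact inter_eq_left.mpr (Ioi_subset_Ioi hr.le)

lemma fP_eq {n : ℕ} (hn : 3 ≤ n) (P : L2) {r : ℝ} (hr : 0 < r) :
    fP n P r = ⟪ker n hn r hr, P⟫_ℝ := by
  rw [L2.inner_def]
  have h0 := (ker_memLp hn hr).coeFn_toLp
  have h1 : ∫ t, ⟪(ker n hn r hr : ℝ → ℝ) t, P t⟫_ℝ ∂mm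
      = ∫ t, (Ioi r).indicator (fun t : ℝ => - pp n P t) t ∂mm := by
    refine integral_congr_ae ?_
    filter_upwards [h0] with t ht
    have : (ker n hn r hr : ℝ → ℝ) t = (Ioi r).indicator (fun t => -(wt n t)⁻¹) t := ht
    rw [this]
    by_cases ht : t ∈ Ioi r
    · simp only [indicator_of_mem ht, pp]
      simp [div_eq_mul_inv]
    · simp [indicator_of_notMem ht]
  rw [h1, integral_indicator measurableSet_Ioi, Measure.restrict_restrict measurableSet_Ioi,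
    inter_eq_left.mpr (Ioi_subset_Ioi hr.le), integral_neg]
  rfl

lemma fP_sq {n : ℕ} (hn : 3 ≤ n) {P : L2} (hP : ‖P‖ ^ 2 ≤ 1) {r : ℝ} (hr : 0 < r) :
    fP n P r ^ 2 ≤ (r ^ (n - 2))⁻¹ := by
  rw [fP_eq hn P hr, ← sq_abs]
  have h := abs_real_inner_le_norm (ker n hn r hr) P
  have h2 := ker_norm hn hr
  calc |⟪ker n hn r hr, P⟫_ℝ| ^ 2 ≤ (‖ker n hn r hr‖ * ‖P‖) ^ 2 :=
        pow_le_pow_left₀ (abs_nonneg _) h 2
    _ = ‖ker n hn r hr‖ ^ 2 * ‖P‖ ^ 2 := by ring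
    _ ≤ (r ^ (n - 2))⁻¹ * 1 := mul_le_mul h2 hP (by positivity) (by positivity)
    _ = _ := mul_one _

lemma fP_add {n : ℕ} (hn : 3 ≤ n) (P S : L2) (c : ℝ) {r : ℝ} (hr : 0 < r) :
    fP n (P + c • S) r = fP n P r + c * fP n S r := by
  rw [fP_eq hn _ hr, fP_eq hn _ hr, fP_eq hn _ hr, inner_add_right, inner_smul_right]

lemma fP_smul {n : ℕ} (hn : 3 ≤ n) (P : L2) (c : ℝ) {r : ℝ} (hr : 0 < r) :
    fP n (c • P) r = c * fP n P r := by
  rw [fP_eq hn _ hr, fP_eq hn _ hr, inner_smul_right]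

/-- elements coming from test functions -/
lemma test_memLp {n : ℕ} {ψ : ℝ → ℝ} (hψ : ContDiff ℝ 1 ψ) (hc : HasCompactSupport ψ) :
    MemLp (fun t => deriv ψ t * wt n t) 2 mm := by
  have h1 : Continuous (fun t => deriv ψ t * wt n t) :=
    (hψ.continuous_deriv le_rfl).mul (by unfold wt; fun_prop)
  exact (h1.memLp_of_hasCompactSupport (hc.deriv.mul_right)).restrict _

/-- the element of a test function -/
noncomputable def tst (n : ℕ) (ψ : ℝ → ℝ) (hψ : ContDiff ℝ 1 ψ) (hc : HasCompactSupport ψ) : L2 :=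
  (test_memLp (n := n) hψ hc).toLp

lemma tst_ae {n : ℕ} {ψ : ℝ → ℝ} (hψ : ContDiff ℝ 1 ψ) (hc : HasCompactSupport ψ) :
    (tst n ψ hψ hc : ℝ → ℝ) =ᵐ[mm] fun t => deriv ψ t * wt n t :=
  (test_memLp (n := n) hψ hc).coeFn_toLp

lemma fP_tst {n : ℕ} {ψ : ℝ → ℝ} (hψ : ContDiff ℝ 1 ψ) (hc : HasCompactSupport ψ) {r : ℝ}
    (hr : 0 < r) : fP n (tst n ψ hψ hc) r = ψ r := by
  unfold fP prim
  have h1 : ∫ t in Ioi r, pp n (tst n ψ hψ hc) t = ∫ t in Ioi r, deriv ψ t := by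
    refine integral_congr_ae ?_
    have h2 : ∀ᵐ t ∂(volume.restrict (Ioi r)),
        (tst n ψ hψ hc : ℝ → ℝ) t = deriv ψ t * wt n t :=
      ae_mono (Measure.restrict_mono (Ioi_subset_Ioi hr.le) le_rfl) (tst_ae hψ hc)
    filter_upwards [h2, ae_restrict_mem measurableSet_Ioi] with t ht ht0
    unfold pp
    rw [ht]
    have := wt_pos (n := n) (hr.trans ht0)
    field_simp
  rw [h1]
  have h3 : Tendsto ψ atTop (𝓝 0) := hc.is_zero_at_infty.mono_left atTop_le_cocompact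
  have h4 := integral_Ioi_of_hasDerivAt_of_tendsto (a := r) (f := ψ) (f' := deriv ψ) (m := 0)
    hψ.continuous.continuousWithinAt
    (fun x _ => ((hψ.differentiable one_ne_zero) x).hasDerivAt)
    (((hψ.continuous_deriv le_rfl).integrable_of_hasCompactSupport hc.deriv).integrableOn) h3
  rw [h4]; ring

lemma inner_tst {n : ℕ} (P : L2) {ψ : ℝ → ℝ} (hψ : ContDiff ℝ 1 ψ) (hc : HasCompactSupport ψ) :
    ⟪P, tst n ψ hψ hc⟫_ℝ = ∫ s in Ioi (0:ℝ), s ^ (n - 1) * (pp n P s * deriv ψ s) := by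
  rw [L2.inner_def]
  refine integral_congr_ae ?_
  filter_upwards [tst_ae (n := n) hψ hc, ae_restrict_mem measurableSet_Ioi] with t ht ht0
  rw [ht]
  have h := wt_pos (n := n) ht0
  unfold pp
  rw [← wt_sq (n := n) ht0]
  simp only [RCLike.inner_apply, conj_trivial]
  field_simp

end Pool.Agent.X96.SS
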