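import Pool.Agent.X96.SS.A1

set_option autoImplicit false

open MeasureTheory Metric Set Filter Topology
open scoped ENNReal NNReal ContDiff InnerProductSpace

namespace Pool.Agent.X96.SS

/-- the nonlinearity -/
noncomputable def gz (z : ℝ) : ℝ := z - Real.log (1 + z)

lemma gz_nonneg {z : ℝ} (hz : 0 ≤ z) : 0 ≤ gz z := by
  unfold gz
  have := Real.log_le_sub_one_of_pos (x := 1 + z) (by linarith)
  linarith

lemma gz_le {z : ℝ} (hz : 0 ≤ z) : gz z ≤ z := by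
  unfold gz
  have := Real.log_nonneg (x := 1 + z) (by linarith)
  linarith

lemma gz_le_sq {z : ℝ} (hz : 0 ≤ z) : gz z ≤ z ^ 2 := by
  unfold gz
  have h := Real.le_log_one_add_of_nonneg hz
  have h2 : z - 2 * z / (z + 2) ≤ z ^ 2 := by
    rw [sub_le_iff_le_add, ← sub_le_iff_le_add', le_div_iff₀ (by linarith)]
    nlinarith [mul_nonneg hz hz, mul_nonneg hz (mul_nonneg hz hz)]
  linarith

lemma gz_conv {a b : ℝ} (ha : 0 ≤ a) (hb : 0 ≤ b) : a / (1 + a) * (b - a) ≤ gz b - gz a := by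
  unfold gz
  have h := Real.log_le_sub_one_of_pos (x := (1 + b) / (1 + a)) (by positivity)
  rw [Real.log_div (by positivity) (by positivity)] at h
  have e : a / (1 + a) * (b - a) = (b - a) - ((1 + b) / (1 + a) - 1) := by
    field_simp; ring
  rw [e]; linarith

lemma gz_meas : Measurable gz := by unfold gz; fun_prop

lemma gz_cont : ContinuousOn gz (Ici 0) := by
  unfold gz
  refine continuousOn_id.sub (ContinuousOn.log (by fun_prop) fun x hx => ?_)
  have : (0:ℝ) ≤ x := hx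
  simp only [ne_eq]
  linarith

lemma gz_strict {a b : ℝ} (ha : 0 ≤ a) (hab : a < b) : gz a < gz b := by
  rcases ha.eq_or_lt with h | h
  · subst h
    unfold gz
    have := Real.log_lt_sub_one_of_pos (x := 1 + b) (by linarith) (by linarith)
    simp only [add_zero, Real.log_one, sub_zero]
    linarith
  · have h1 := gz_conv ha (ha.trans hab.le)
    have h2 : 0 < a / (1 + a) * (b - a) := mul_pos (by positivity) (by linarith)
    linarith

/-- weighted square -/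
def FI (n : ℕ) (u : ℝ → ℝ) : Prop := IntegrableOn (fun s => s ^ (n - 1) * u s ^ 2) (Ioi 0)

/-- energy -/
noncomputable def NN (n : ℕ) (l : ℝ) (P : L2) : ℝ :=
  ‖P‖ ^ 2 + l * ∫ s in Ioi (0:ℝ), s ^ (n - 1) * fP n P s ^ 2

/-- admissible elements -/
def Adm (n : ℕ) (l : ℝ) (P : L2) : Prop := FI n (fP n P) ∧ NN n l P ≤ 1

lemma sqint_nonneg (n : ℕ) (u : ℝ → ℝ) : 0 ≤ ∫ s in Ioi (0:ℝ), s ^ (n - 1) * u s ^ 2 := by
  refine setIntegral_nonneg measurableSet_Ioi fun t ht => ?_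
  have : (0:ℝ) < t := ht
  positivity

lemma Adm.norm_le {n : ℕ} {l : ℝ} (hl : 0 < l) {P : L2} (h : Adm n l P) : ‖P‖ ^ 2 ≤ 1 := by
  have h1 := h.2
  unfold NN at h1
  have := mul_nonneg hl.le (sqint_nonneg n (fP n P))
  linarith

lemma Adm.int_le {n : ℕ} {l : ℝ} (hl : 0 < l) {P : L2} (h : Adm n l P) :
    ∫ s in Ioi (0:ℝ), s ^ (n - 1) * fP n P s ^ 2 ≤ 1 / l := by
  have h1 := h.2
  unfold NN at h1
  rw [le_div_iff₀ hl]
  nlinarith [sq_nonneg ‖P‖]

/-- weak convergence -/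
def WConv (x : ℕ → L2) (P : L2) : Prop := ∀ k : L2, Tendsto (fun j => ⟪k, x j⟫_ℝ) atTop (𝓝 ⟪k, P⟫_ℝ)

lemma WConv.fP {n : ℕ} (hn : 3 ≤ n) {x : ℕ → L2} {P : L2} (h : WConv x P) {r : ℝ} (hr : 0 < r) :
    Tendsto (fun j => fP n (x j) r) atTop (𝓝 (fP n P r)) := by
  rw [fP_eq hn P hr]
  refine (h (ker n hn r hr)).congr fun j => ?_
  rw [fP_eq hn (x j) hr]

lemma Adm.weak {n : ℕ} (hn : 3 ≤ n) {l : ℝ} (hl : 0 < l) {x : ℕ → L2} {P : L2} (h : WConv x P)
    (hx : ∀ j, Adm n l (x j)) : Adm n l P := by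
  have hm : ∀ Q : L2, Measurable (fun s : ℝ => s ^ (n - 1) * SS.fP n Q s ^ 2) := fun Q =>
    (measurable_id.pow_const _).mul ((fP_meas n Q).pow_const _)
  have h1 : ∫⁻ s in Ioi (0:ℝ), ENNReal.ofReal (s ^ (n - 1) * SS.fP n P s ^ 2)
      ≤ liminf (fun j => ∫⁻ s in Ioi (0:ℝ), ENNReal.ofReal (s ^ (n - 1) * SS.fP n (x j) s ^ 2)) atTop := by
    have h2 := lintegral_liminf_le (u := (atTop : Filter ℕ)) (μ := volume.restrict (Ioi (0:ℝ)))
      (f := fun j s => ENNReal.ofReal (s ^ (n - 1) * SS.fP n (x j) s ^ 2))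
      (fun j => (hm (x j)).ennreal_ofReal)
    refine le_trans (le_of_eq ?_) h2
    refine lintegral_congr_ae ?_
    filter_upwards [ae_restrict_mem measurableSet_Ioi] with s hs
    have h3 : Tendsto (fun j => ENNReal.ofReal (s ^ (n - 1) * SS.fP n (x j) s ^ 2)) atTop
        (𝓝 (ENNReal.ofReal (s ^ (n - 1) * SS.fP n P s ^ 2))) :=
      (ENNReal.continuous_ofReal.tendsto _).comp (((h.fP hn hs).pow 2).const_mul _)
    exact h3.liminf_eq.symm
  have h4 : ∀ j, ∫⁻ s in Ioi (0:ℝ), ENNReal.ofReal (s ^ (n - 1) * SS.fP n (x j) s ^ 2)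
      ≤ ENNReal.ofReal ((1 - 2 * ⟪P, x j⟫_ℝ + ‖P‖ ^ 2) / l) := by
    intro j
    rw [← ofReal_integral_eq_lintegral_ofReal (hx j).1 ?_]
    · apply ENNReal.ofReal_le_ofReal
      rw [le_div_iff₀ hl]
      have h5 := (hx j).2
      unfold NN at h5
      have h6 : 0 ≤ ‖P - x j‖ ^ 2 := sq_nonneg _
      rw [norm_sub_sq_real] at h6
      linarith
    · filter_upwards [ae_restrict_mem measurableSet_Ioi] with s hs
      have : (0:ℝ) < s := hs
      simp only [Pi.zero_apply]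
      positivity
  have h7 : Tendsto (fun j => ENNReal.ofReal ((1 - 2 * ⟪P, x j⟫_ℝ + ‖P‖ ^ 2) / l)) atTop
      (𝓝 (ENNReal.ofReal ((1 - ‖P‖ ^ 2) / l))) := by
    refine (ENNReal.continuous_ofReal.tendsto _).comp ?_
    have h8 := (((h P).const_mul 2).const_sub 1).add_const (‖P‖ ^ 2)
    have h9 := h8.div_const l
    rw [real_inner_self_eq_norm_sq] at h9
    have e : (1 - 2 * ‖P‖ ^ 2 + ‖P‖ ^ 2) / l = (1 - ‖P‖ ^ 2) / l := by ring
    rw [e] at h9
    exact h9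
  have h10 : ∫⁻ s in Ioi (0:ℝ), ENNReal.ofReal (s ^ (n - 1) * SS.fP n P s ^ 2)
      ≤ ENNReal.ofReal ((1 - ‖P‖ ^ 2) / l) := by
    refine h1.trans ?_
    rw [← h7.liminf_eq]
    exact liminf_le_liminf (Eventually.of_forall h4)
  have h11 : FI n (SS.fP n P) := by
    refine ⟨(hm P).aestronglyMeasurable, ?_⟩
    rw [hasFiniteIntegral_iff_ofReal]
    · exact h10.trans_lt ENNReal.ofReal_lt_top
    · filter_upwards [ae_restrict_mem measurableSet_Ioi] with s hs
      have : (0:ℝ) < s := hs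
      simp only [Pi.zero_apply]
      positivity
  have hP1 : ‖P‖ ^ 2 ≤ 1 := by
    have h12 : ∀ j, 2 * ⟪P, x j⟫_ℝ - ‖P‖ ^ 2 ≤ 1 := by
      intro j
      have h6 : 0 ≤ ‖P - x j‖ ^ 2 := sq_nonneg _
      rw [norm_sub_sq_real] at h6
      have := (hx j).norm_le hl
      linarith
    have h13 := ((h P).const_mul 2).sub_const (‖P‖ ^ 2)
    have h14 := le_of_tendsto' h13 h12
    rw [real_inner_self_eq_norm_sq] at h14
    linarith
  refine ⟨h11, ?_⟩
  unfold NN
  have h15 : ∫ s in Ioi (0:ℝ), s ^ (n - 1) * SS.fP n P s ^ 2 ≤ (1 - ‖P‖ ^ 2) / l := by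
    rw [← ofReal_integral_eq_lintegral_ofReal h11 ?_] at h10
    · exact (ENNReal.ofReal_le_ofReal_iff (div_nonneg (by linarith) hl.le)).mp h10
    · filter_upwards [ae_restrict_mem measurableSet_Ioi] with s hs
      have : (0:ℝ) < s := hs
      simp only [Pi.zero_apply]
      positivity
  rw [le_div_iff₀ hl] at h15
  linarith

lemma exists_weak {x : ℕ → L2} (hx : ∀ j, ‖x j‖ ^ 2 ≤ 1) :
    ∃ P : L2, ∃ σ : ℕ → ℕ, StrictMono σ ∧ WConv (x ∘ σ) P := by
  haveI hf2 : Fact ((2:ENNReal) ≠ ⊤) := ⟨by norm_num⟩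
  haveI hsep : SecondCountableTopology L2 := Lp.SecondCountableTopology
  have hsc := WeakDual.isSeqCompact_closedBall ℝ L2 (0 : StrongDual ℝ L2) 1
  let y : ℕ → WeakDual ℝ L2 := fun j => StrongDual.toWeakDual (InnerProductSpace.toDual ℝ L2 (x j))
  have hy : ∀ j, y j ∈ (WeakDual.toStrongDual ⁻¹' Metric.closedBall (0 : StrongDual ℝ L2) 1) := by
    intro j
    simp only [mem_preimage, mem_closedBall, dist_zero_right]
    have : ‖InnerProductSpace.toDual ℝ L2 (x j)‖ = ‖x j‖ := LinearIsometryEquiv.norm_map _ _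
    have h2 : ‖x j‖ ≤ 1 := by
      by_contra hcon
      push Not at hcon
      have := hx j
      nlinarith
    change ‖InnerProductSpace.toDual ℝ L2 (x j)‖ ≤ 1
    rw [this]; exact h2
  obtain ⟨ℓ, -, σ, hσ, hlim⟩ := hsc hy
  refine ⟨(InnerProductSpace.toDual ℝ L2).symm (WeakDual.toStrongDual ℓ), σ, hσ, fun k => ?_⟩
  have h4 : Tendsto (fun j => (y (σ j)) k) atTop (𝓝 (ℓ k)) :=
    ((WeakDual.eval_continuous k).tendsto ℓ).comp hlim
  have e1 : ∀ j, (y (σ j)) k = ⟪k, x (σ j)⟫_ℝ := by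
    intro j
    change (InnerProductSpace.toDual ℝ L2 (x (σ j))) k = _
    rw [InnerProductSpace.toDual_apply_apply, real_inner_comm]
  have e2 : ⟪k, (InnerProductSpace.toDual ℝ L2).symm (WeakDual.toStrongDual ℓ)⟫_ℝ = ℓ k := by
    rw [real_inner_comm, InnerProductSpace.toDual_symm_apply]
    rfl
  rw [e2]
  exact h4.congr e1

end Pool.Agent.X96.SS
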