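import Pool.Agent.X96.SS.A2

set_option autoImplicit false

open MeasureTheory Metric Set Filter Topology
open scoped ENNReal NNReal ContDiff InnerProductSpace

namespace Pool.Agent.X96.SS

/-- the functional -/
noncomputable def Val (n : ℕ) (P Q : L2) : ℝ :=
  ∫ s in Ioi (0:ℝ), s ^ (n - 1) * gz (fP n P s ^ 2 + fP n Q s ^ 2)

lemma Val_comm (n : ℕ) (P Q : L2) : Val n P Q = Val n Q P := by
  unfold Val
  simp only [add_comm (fP n P _ ^ 2)]

lemma gz_int {n : ℕ} {u v : ℝ → ℝ} (hu : Measurable u) (hv : Measurable v) (hFu : FI n u)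
    (hFv : FI n v) : IntegrableOn (fun s => s ^ (n - 1) * gz (u s ^ 2 + v s ^ 2)) (Ioi 0) := by
  refine Integrable.mono' (Integrable.add hFu hFv) ?_ ?_
  · exact ((measurable_id.pow_const _).mul (gz_meas.comp
      ((hu.pow_const _).add (hv.pow_const _)))).aestronglyMeasurable
  · filter_upwards [ae_restrict_mem measurableSet_Ioi] with s hs
    have hs0 : (0:ℝ) < s := hs
    have h1 : 0 ≤ u s ^ 2 + v s ^ 2 := by positivity
    rw [Real.norm_of_nonneg (mul_nonneg (by positivity) (gz_nonneg h1))]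
    calc s ^ (n - 1) * gz (u s ^ 2 + v s ^ 2) ≤ s ^ (n - 1) * (u s ^ 2 + v s ^ 2) :=
          mul_le_mul_of_nonneg_left (gz_le h1) (by positivity)
      _ = _ := by simp only [Pi.add_apply]; ring

lemma Val_le {n : ℕ} {l1 l2 : ℝ} (h1 : 0 < l1) (h2 : 0 < l2) {P Q : L2} (hP : Adm n l1 P)
    (hQ : Adm n l2 Q) : Val n P Q ≤ 1 / l1 + 1 / l2 := by
  unfold Val
  calc ∫ s in Ioi (0:ℝ), s ^ (n - 1) * gz (fP n P s ^ 2 + fP n Q s ^ 2)
      ≤ ∫ s in Ioi (0:ℝ), (s ^ (n - 1) * fP n P s ^ 2 + s ^ (n - 1) * fP n Q s ^ 2) := by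
        refine setIntegral_mono_on (gz_int (fP_meas n P) (fP_meas n Q) hP.1 hQ.1)
          (Integrable.add hP.1 hQ.1) measurableSet_Ioi fun s hs => ?_
        have hs0 : (0:ℝ) < s := hs
        rw [← mul_add]
        exact mul_le_mul_of_nonneg_left (gz_le (by positivity)) (by positivity)
    _ = (∫ s in Ioi (0:ℝ), s ^ (n - 1) * fP n P s ^ 2) + ∫ s in Ioi (0:ℝ), s ^ (n - 1) * fP n Q s ^ 2 :=
        integral_add hP.1 hQ.1
    _ ≤ _ := add_le_add (hP.int_le h1) (hQ.int_le h2)

lemma fP_zero {n : ℕ} (hn : 3 ≤ n) {r : ℝ} (hr : 0 < r) : fP n 0 r = 0 := by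
  rw [fP_eq hn _ hr, inner_zero_right]

lemma adm_zero {n : ℕ} (hn : 3 ≤ n) (l : ℝ) : Adm n l 0 := by
  have h : ∀ s ∈ Ioi (0:ℝ), (0:ℝ) = s ^ (n - 1) * fP n 0 s ^ 2 := by
    intro s hs
    rw [fP_zero hn hs]; ring
  have h0 : IntegrableOn (fun _ : ℝ => (0:ℝ)) (Ioi 0) volume := integrableOn_zero
  refine ⟨h0.congr_fun h measurableSet_Ioi, ?_⟩
  unfold NN
  rw [← setIntegral_congr_fun measurableSet_Ioi h]
  simp

theorem max_exists {n : ℕ} (hn : 3 ≤ n) {l1 l2 : ℝ} (h1 : 0 < l1) (h2 : 0 < l2) :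
    ∃ P Q : L2, Adm n l1 P ∧ Adm n l2 Q ∧
      ∀ P' Q' : L2, Adm n l1 P' → Adm n l2 Q' → Val n P' Q' ≤ Val n P Q := by
  obtain ⟨S, hS⟩ : ∃ S : Set ℝ, S = {x | ∃ P Q : L2, Adm n l1 P ∧ Adm n l2 Q ∧ x = Val n P Q} :=
    ⟨_, rfl⟩
  have hne : S.Nonempty := ⟨Val n 0 0, by rw [hS]; exact ⟨0, 0, adm_zero hn _, adm_zero hn _, rfl⟩⟩
  have hbd : BddAbove S := by
    refine ⟨1 / l1 + 1 / l2, ?_⟩
    rw [hS]
    rintro x ⟨P, Q, hP, hQ, rfl⟩
    exact Val_le h1 h2 hP hQ
  obtain ⟨w, -, hw, hwS⟩ := exists_seq_tendsto_sSup hne hbd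
  have hwS' : ∀ j, ∃ P Q : L2, Adm n l1 P ∧ Adm n l2 Q ∧ w j = Val n P Q := by
    intro j; have := hwS j; rw [hS] at this; exact this
  choose x y hx hy hxy using hwS'
  obtain ⟨P, σ, hσ, hP⟩ := exists_weak (x := x) (fun j => (hx j).norm_le h1)
  obtain ⟨Q, τ, hτ, hQ⟩ := exists_weak (x := y ∘ σ) (fun j => (hy (σ j)).norm_le h2)
  have hP' : WConv (x ∘ σ ∘ τ) P := fun k => (hP k).comp hτ.tendsto_atTop
  have hPA : Adm n l1 P := Adm.weak hn h1 hP' (fun j => hx _)
  have hQA : Adm n l2 Q := Adm.weak hn h2 hQ (fun j => hy _)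
  refine ⟨P, Q, hPA, hQA, ?_⟩
  obtain ⟨C, hC⟩ : ∃ C : ℝ, C = 1 / l1 + 1 / l2 := ⟨_, rfl⟩
  have hC0 : 0 < C := by rw [hC]; positivity
  have key : ∀ R : ℝ, 1 ≤ R → sSup S ≤ Val n P Q + 2 * C / R := by
    intro R hR
    have hR0 : 0 < R := by linarith
    have hu : Ioi (0:ℝ) = Ioc 0 R ∪ Ioi R := (Ioc_union_Ioi_eq_Ioi hR0.le).symm
    have hd : Disjoint (Ioc 0 R) (Ioi R) := Set.Ioc_disjoint_Ioi le_rfl
    have hsplit : ∀ P Q : L2, FI n (fP n P) → FI n (fP n Q) →
        Val n P Q = (∫ s in Ioc 0 R, s ^ (n - 1) * gz (fP n P s ^ 2 + fP n Q s ^ 2))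
          + ∫ s in Ioi R, s ^ (n - 1) * gz (fP n P s ^ 2 + fP n Q s ^ 2) := by
      intro P Q hP hQ
      have hi := gz_int (fP_meas n P) (fP_meas n Q) hP hQ
      unfold Val
      rw [hu] at hi ⊢
      exact setIntegral_union hd measurableSet_Ioi (hi.mono_set subset_union_left)
        (hi.mono_set subset_union_right)
    have htail : ∀ P Q : L2, Adm n l1 P → Adm n l2 Q →
        ∫ s in Ioi R, s ^ (n - 1) * gz (fP n P s ^ 2 + fP n Q s ^ 2) ≤ 2 * C / R := by
      intro P Q hP hQ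
      have hi := gz_int (fP_meas n P) (fP_meas n Q) hP.1 hQ.1
      have hsub : Ioi R ⊆ Ioi (0:ℝ) := Ioi_subset_Ioi hR0.le
      have hi1 : IntegrableOn (fun s => s ^ (n - 1) * fP n P s ^ 2 + s ^ (n - 1) * fP n Q s ^ 2)
          (Ioi 0) := Integrable.add hP.1 hQ.1
      have hi2 : IntegrableOn (fun s => 2 / R * (s ^ (n - 1) * fP n P s ^ 2
          + s ^ (n - 1) * fP n Q s ^ 2)) (Ioi 0) := hi1.const_mul (2 / R)
      calc ∫ s in Ioi R, s ^ (n - 1) * gz (fP n P s ^ 2 + fP n Q s ^ 2)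
          ≤ ∫ s in Ioi R, 2 / R * (s ^ (n - 1) * fP n P s ^ 2 + s ^ (n - 1) * fP n Q s ^ 2) := by
            refine setIntegral_mono_on (hi.mono_set hsub) (hi2.mono_set hsub) measurableSet_Ioi
              fun s hs => ?_
            have hsR : R < s := hs
            have hs0 : 0 < s := hR0.trans hsR
            have b1 := fP_sq hn (hP.norm_le h1) hs0
            have b2 := fP_sq hn (hQ.norm_le h2) hs0
            have b3 : (s ^ (n - 2))⁻¹ ≤ 1 / R := by
              rw [one_div]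
              apply inv_anti₀ hR0
              calc R ≤ s := hsR.le
                _ = s ^ 1 := (pow_one s).symm
                _ ≤ s ^ (n - 2) := pow_le_pow_right₀ (by linarith) (by omega)
            have hρ : 0 ≤ fP n P s ^ 2 + fP n Q s ^ 2 := by positivity
            have b4 : gz (fP n P s ^ 2 + fP n Q s ^ 2)
                ≤ 2 / R * (fP n P s ^ 2 + fP n Q s ^ 2) := by
              refine (gz_le_sq hρ).trans ?_
              rw [sq]
              refine mul_le_mul_of_nonneg_right ?_ hρ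
              calc fP n P s ^ 2 + fP n Q s ^ 2 ≤ 1 / R + 1 / R := by linarith
                _ = 2 / R := by ring
            calc s ^ (n - 1) * gz (fP n P s ^ 2 + fP n Q s ^ 2)
                ≤ s ^ (n - 1) * (2 / R * (fP n P s ^ 2 + fP n Q s ^ 2)) :=
                  mul_le_mul_of_nonneg_left b4 (by positivity)
              _ = _ := by ring
        _ ≤ ∫ s in Ioi 0, 2 / R * (s ^ (n - 1) * fP n P s ^ 2 + s ^ (n - 1) * fP n Q s ^ 2) := by
            refine setIntegral_mono_set hi2 ?_ hsub.eventuallyLE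
            filter_upwards [ae_restrict_mem measurableSet_Ioi] with s hs
            have hs0 : (0:ℝ) < s := hs
            simp only [Pi.zero_apply]
            positivity
        _ = 2 / R * ((∫ s in Ioi (0:ℝ), s ^ (n - 1) * fP n P s ^ 2)
              + ∫ s in Ioi (0:ℝ), s ^ (n - 1) * fP n Q s ^ 2) := by
            rw [integral_const_mul]
            congr 1
            exact integral_add hP.1 hQ.1
        _ ≤ 2 / R * C := by
            refine mul_le_mul_of_nonneg_left ?_ (by positivity)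
            rw [hC]
            exact add_le_add (hP.int_le h1) (hQ.int_le h2)
        _ = _ := by ring
    have hlim : Tendsto (fun j => ∫ s in Ioc 0 R, s ^ (n - 1) *
        gz (fP n (x (σ (τ j))) s ^ 2 + fP n (y (σ (τ j))) s ^ 2)) atTop
        (𝓝 (∫ s in Ioc 0 R, s ^ (n - 1) * gz (fP n P s ^ 2 + fP n Q s ^ 2))) := by
      refine tendsto_integral_of_dominated_convergence (fun s => 2 * s) ?_ ?_ ?_ ?_
      · intro j
        exact ((measurable_id.pow_const _).mul (gz_meas.comp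
          (((fP_meas n _).pow_const _).add ((fP_meas n _).pow_const _)))).aestronglyMeasurable
      · exact ((continuous_const.mul continuous_id).continuousOn.integrableOn_Icc).mono_set
          Ioc_subset_Icc_self
      · intro j
        filter_upwards [ae_restrict_mem measurableSet_Ioc] with s hs
        have hs0 : (0:ℝ) < s := hs.1
        have hρ : 0 ≤ fP n (x (σ (τ j))) s ^ 2 + fP n (y (σ (τ j))) s ^ 2 := by positivity
        rw [Real.norm_of_nonneg (mul_nonneg (by positivity) (gz_nonneg hρ))]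
        have b1 := fP_sq hn ((hx (σ (τ j))).norm_le h1) hs0
        have b2 := fP_sq hn ((hy (σ (τ j))).norm_le h2) hs0
        calc s ^ (n - 1) * gz (fP n (x (σ (τ j))) s ^ 2 + fP n (y (σ (τ j))) s ^ 2)
            ≤ s ^ (n - 1) * (2 * (s ^ (n - 2))⁻¹) := by
              refine mul_le_mul_of_nonneg_left ?_ (by positivity)
              exact (gz_le hρ).trans (by linarith)
          _ = 2 * s := by
              have e : n - 1 = (n - 2) + 1 := by omega
              rw [e, pow_succ]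
              field_simp
      · filter_upwards [ae_restrict_mem measurableSet_Ioc] with s hs
        have hs0 : (0:ℝ) < s := hs.1
        have c1 : Tendsto (fun j => fP n (x (σ (τ j))) s) atTop (𝓝 (fP n P s)) := hP'.fP hn hs0
        have c2 : Tendsto (fun j => fP n (y (σ (τ j))) s) atTop (𝓝 (fP n Q s)) := hQ.fP hn hs0
        have c3 := (c1.pow 2).add (c2.pow 2)
        refine Tendsto.const_mul _ ?_
        have c4 : ContinuousWithinAt gz (Ici 0) (fP n P s ^ 2 + fP n Q s ^ 2) :=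
          gz_cont _ (by simp only [mem_Ici]; positivity)
        refine c4.tendsto.comp (tendsto_nhdsWithin_iff.mpr ⟨c3, ?_⟩)
        refine Eventually.of_forall fun j => ?_
        simp only [mem_Ici]
        positivity
    have hlim2 : Tendsto (fun j => w (σ (τ j))) atTop (𝓝 (sSup S)) :=
      hw.comp (hσ.tendsto_atTop.comp hτ.tendsto_atTop)
    have hle : ∀ j, w (σ (τ j)) ≤ (∫ s in Ioc 0 R, s ^ (n - 1) *
        gz (fP n (x (σ (τ j))) s ^ 2 + fP n (y (σ (τ j))) s ^ 2)) + 2 * C / R := by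
      intro j
      rw [hxy, hsplit _ _ (hx _).1 (hy _).1]
      have := htail _ _ (hx (σ (τ j))) (hy (σ (τ j)))
      linarith
    have h3 := le_of_tendsto_of_tendsto' hlim2 (hlim.add_const (2 * C / R)) hle
    have h4 : ∫ s in Ioc 0 R, s ^ (n - 1) * gz (fP n P s ^ 2 + fP n Q s ^ 2) ≤ Val n P Q := by
      rw [hsplit P Q hPA.1 hQA.1]
      have : 0 ≤ ∫ s in Ioi R, s ^ (n - 1) * gz (fP n P s ^ 2 + fP n Q s ^ 2) := by
        refine setIntegral_nonneg measurableSet_Ioi fun s hs => ?_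
        have hs0 : 0 < s := hR0.trans hs
        exact mul_nonneg (by positivity) (gz_nonneg (by positivity))
      linarith
    linarith
  have hsup : sSup S ≤ Val n P Q := by
    have h5 : Tendsto (fun R : ℝ => Val n P Q + 2 * C / R) atTop (𝓝 (Val n P Q + 0)) :=
      tendsto_const_nhds.add (tendsto_const_nhds.div_atTop tendsto_id)
    rw [add_zero] at h5
    refine ge_of_tendsto h5 ?_
    filter_upwards [eventually_ge_atTop 1] with R hR
    exact key R hR
  intro P' Q' hP'' hQ''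
  refine le_trans (le_csSup hbd ?_) hsup
  rw [hS]
  exact ⟨P', Q', hP'', hQ'', rfl⟩

end Pool.Agent.X96.SS
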