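import Pool.Agent.X96.SS.T2
import Pool.Agent.H248.BH.B01

set_option autoImplicit false

open MeasureTheory Metric Set Filter Topology
open scoped ENNReal NNReal ContDiff

namespace Pool.Agent.X96.SS

open H248.BH (sph om Av)

/-- spherical integral -/
noncomputable def sm {n : ℕ} (G : Y n → ℝ) (s : ℝ) : ℝ :=
  ∫ θ : sphere (0 : Y n) 1, G (s • (θ : Y n)) ∂(sph n)

instance (n : ℕ) : IsFiniteMeasure (sph n) := by unfold sph; infer_instance

lemma polar_mul {n : ℕ} (hn : 1 ≤ n) {F : ℝ → ℝ} {G : Y n → ℝ}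
    (hi : Integrable (fun x => F ‖x‖ * G x)) :
    ∫ x, F ‖x‖ * G x = ∫ s in Ioi (0:ℝ), s ^ (n - 1) * (F s * sm G s) := by
  obtain ⟨-, -, h⟩ := H248.BH.polar_integral hn hi
  rw [h, ← integral_const_mul]
  refine setIntegral_congr_fun measurableSet_Ioi fun s hs => ?_
  have hs0 : 0 < s := hs
  have hom := (H248.BH.om_pos hn).ne'
  have e : Av (fun x : Y n => F ‖x‖ * G x) s = (om n)⁻¹ * (F s * sm G s) := by
    unfold Av sm
    rw [← integral_const_mul (F s)]
    congr 1
    refine integral_congr_ae (Eventually.of_forall fun (θ : sphere (0 : Y n) 1) => ?_)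
    have hθ : ‖(s • (θ : Y n) : Y n)‖ = s := by
      rw [norm_smul, Real.norm_of_nonneg hs0.le]
      simp
    simp only [hθ]
  rw [e]
  field_simp

lemma sm_hasDeriv {n : ℕ} {φ : Y n → ℝ} (hφ : ContDiff ℝ ∞ φ) (hc : HasCompactSupport φ) (s : ℝ) :
    HasDerivAt (sm φ) (∫ θ : sphere (0 : Y n) 1, fderiv ℝ φ (s • (θ : Y n)) (θ : Y n) ∂(sph n)) s := by
  have hcf : Continuous (fderiv ℝ φ) := hφ.continuous_fderiv (by simp)
  obtain ⟨M, hM⟩ := hcf.bounded_above_of_compact_support (hc.fderiv (𝕜 := ℝ))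
  have hcθ : Continuous (fun θ : sphere (0 : Y n) 1 => (θ : Y n)) := continuous_subtype_val
  have h := hasDerivAt_integral_of_dominated_loc_of_deriv_le (μ := sph n) (x₀ := s)
    (F := fun s (θ : sphere (0 : Y n) 1) => φ (s • (θ : Y n)))
    (F' := fun s (θ : sphere (0 : Y n) 1) => fderiv ℝ φ (s • (θ : Y n)) (θ : Y n))
    (s := univ) (bound := fun _ => M) univ_mem
    (Eventually.of_forall fun r =>
      (hφ.continuous.comp (hcθ.const_smul r)).aestronglyMeasurable)
    ?_ ?_ ?_ (integrable_const M) ?_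
  · exact h.2
  · obtain ⟨B, hB⟩ := hφ.continuous.bounded_above_of_compact_support hc
    exact Integrable.of_bound (hφ.continuous.comp (hcθ.const_smul s)).aestronglyMeasurable B
      (Eventually.of_forall fun θ => hB _)
  · exact ((hcf.comp (hcθ.const_smul s)).clm_apply hcθ).aestronglyMeasurable
  · refine Eventually.of_forall fun θ r _ => ?_
    refine (ContinuousLinearMap.le_opNorm _ _).trans ?_
    have hθ : ‖(θ : Y n)‖ = 1 := by simp
    rw [hθ, mul_one]
    exact hM _
  · refine Eventually.of_forall fun θ r _ => ?_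
    have h1 : HasFDerivAt φ (fderiv ℝ φ (r • (θ : Y n))) (r • (θ : Y n)) :=
      ((hφ.differentiable (by simp)) _).hasFDerivAt
    have h2 : HasDerivAt (fun r : ℝ => r • (θ : Y n)) (θ : Y n) r := by
      simpa using (hasDerivAt_id r).smul_const (θ : Y n)
    exact h1.comp_hasDerivAt r h2

lemma sm_deriv {n : ℕ} {φ : Y n → ℝ} (hφ : ContDiff ℝ ∞ φ) (hc : HasCompactSupport φ) (s : ℝ) :
    deriv (sm φ) s = ∫ θ : sphere (0 : Y n) 1, fderiv ℝ φ (s • (θ : Y n)) (θ : Y n) ∂(sph n) :=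
  (sm_hasDeriv hφ hc s).deriv

lemma sm_contDiff {n : ℕ} {φ : Y n → ℝ} (hφ : ContDiff ℝ ∞ φ) (hc : HasCompactSupport φ) :
    ContDiff ℝ 1 (sm φ) := by
  rw [contDiff_one_iff_deriv]
  refine ⟨fun s => (sm_hasDeriv hφ hc s).differentiableAt, ?_⟩
  have hcf : Continuous (fderiv ℝ φ) := hφ.continuous_fderiv (by simp)
  obtain ⟨M, hM⟩ := hcf.bounded_above_of_compact_support (hc.fderiv (𝕜 := ℝ))
  have hcθ : Continuous (fun θ : sphere (0 : Y n) 1 => (θ : Y n)) := continuous_subtype_val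
  have e : deriv (sm φ) = fun s => ∫ θ : sphere (0 : Y n) 1,
      fderiv ℝ φ (s • (θ : Y n)) (θ : Y n) ∂(sph n) := funext fun s => sm_deriv hφ hc s
  rw [e]
  refine continuous_of_dominated (bound := fun _ => M) ?_ ?_ (integrable_const M) ?_
  · intro s
    exact ((hcf.comp (hcθ.const_smul s)).clm_apply hcθ).aestronglyMeasurable
  · intro s
    refine Eventually.of_forall fun θ => ?_
    refine (ContinuousLinearMap.le_opNorm _ _).trans ?_
    have hθ : ‖(θ : Y n)‖ = 1 := by simp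
    rw [hθ, mul_one]
    exact hM _
  · refine Eventually.of_forall fun θ => ?_
    exact (hcf.comp (continuous_id.smul continuous_const)).clm_apply continuous_const

lemma sm_compact {n : ℕ} {φ : Y n → ℝ} (hc : HasCompactSupport φ) : HasCompactSupport (sm φ) := by
  obtain ⟨R, hR⟩ := hc.isCompact.isBounded.subset_closedBall (0 : Y n)
  refine HasCompactSupport.of_support_subset_isCompact (isCompact_Icc (a := -R) (b := R)) ?_
  intro s hs
  by_contra hcon
  apply hs
  have hR2 : R < |s| := by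
    rw [mem_Icc, not_and_or, not_le, not_le] at hcon
    rcases hcon with h | h
    · exact lt_of_lt_of_le (by linarith : R < -s) (neg_le_abs s)
    · exact lt_of_lt_of_le h (le_abs_self s)
  unfold sm
  have : ∀ θ : sphere (0 : Y n) 1, φ (s • (θ : Y n)) = 0 := by
    intro θ
    by_contra h
    have h2 := hR (subset_tsupport _ h)
    rw [mem_closedBall, dist_zero_right, norm_smul] at h2
    have hθ : ‖(θ : Y n)‖ = 1 := by simp
    rw [hθ, mul_one, Real.norm_eq_abs] at h2
    linarith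
  simp [this]

/-- the weak equation on the half line -/
def RadEq (n : ℕ) (p : ℝ → ℝ) (l c : ℝ) (W : ℝ → ℝ) : Prop :=
  ∀ ψ : ℝ → ℝ, ContDiff ℝ 1 ψ → HasCompactSupport ψ →
    (∫ s in Ioi (0:ℝ), s ^ (n - 1) * (p s * deriv ψ s))
      + l * (∫ s in Ioi (0:ℝ), s ^ (n - 1) * (prim p s * ψ s))
    = c * ∫ s in Ioi (0:ℝ), s ^ (n - 1) * (W s * prim p s * ψ s)

theorem transfer {n : ℕ} (hn : 3 ≤ n) {p : ℝ → ℝ} (h : PD n p) (hf : PD n (prim p)) {l c : ℝ}
    {W : ℝ → ℝ} (hW : Measurable W) (hW1 : ∀ s, |W s| ≤ 1) (he : RadEq n p l c W)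
    {φ : Y n → ℝ} (hφ : ContDiff ℝ ∞ φ) (hc : HasCompactSupport φ) :
    (∫ x, fderiv ℝ φ x ((p ‖x‖ / ‖x‖) • x)) + l * (∫ x, prim p ‖x‖ * φ x)
      = c * ∫ x, W ‖x‖ * prim p ‖x‖ * φ x := by
  have hn1 : 1 ≤ n := by omega
  have : Nonempty (Fin n) := ⟨⟨0, hn1⟩⟩
  have : Nontrivial (Y n) := inferInstance
  have hcf : Continuous (fderiv ℝ φ) := hφ.continuous_fderiv (by simp)
  have hpl : LocallyIntegrable (fun x : Y n => p ‖x‖) :=
    (memLp_norm hn1 h).locallyIntegrable (by norm_num)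
  have hpl' : LocallyIntegrable (fun x : Y n => |p ‖x‖|) :=
    (memLp_norm hn1 h).norm.locallyIntegrable (by norm_num)
  have hfl : LocallyIntegrable (fun x : Y n => prim p ‖x‖) :=
    (memLp_norm hn1 hf).locallyIntegrable (by norm_num)
  have hfl' : LocallyIntegrable (fun x : Y n => |prim p ‖x‖|) :=
    (memLp_norm hn1 hf).norm.locallyIntegrable (by norm_num)
  have i1 : Integrable (fun x => p ‖x‖ * fderiv ℝ φ x (‖x‖⁻¹ • x)) := by
    refine (int_cc hpl' hcf.norm (hc.fderiv (𝕜 := ℝ)).norm).mono' ?_ ?_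
    · have m1 : Measurable (fun x : Y n => p ‖x‖) := h.meas.comp measurable_norm
      have m2 : Measurable (fun x : Y n => fderiv ℝ φ x (‖x‖⁻¹ • x)) := by
        have m3 : Measurable (fun x : Y n => ‖x‖⁻¹ • x) := by fun_prop
        have m4 : Continuous (fun q : (Y n →L[ℝ] ℝ) × Y n => q.1 q.2) :=
          isBoundedBilinearMap_apply.continuous
        exact m4.measurable.comp (hcf.measurable.prodMk m3)
      exact (m1.mul m2).aestronglyMeasurable
    · refine Eventually.of_forall fun x => ?_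
      rw [norm_mul]
      refine mul_le_mul_of_nonneg_left ?_ (norm_nonneg _)
      refine (ContinuousLinearMap.le_opNorm _ _).trans ?_
      have : ‖‖x‖⁻¹ • x‖ ≤ 1 := by
        rw [norm_smul, norm_inv, norm_norm]
        exact inv_mul_le_one_of_le₀ le_rfl (norm_nonneg _)
      calc ‖fderiv ℝ φ x‖ * ‖‖x‖⁻¹ • x‖ ≤ ‖fderiv ℝ φ x‖ * 1 :=
            mul_le_mul_of_nonneg_left this (norm_nonneg _)
        _ = _ := by rw [mul_one]
  have i2 : Integrable (fun x => prim p ‖x‖ * φ x) := int_cc hfl hφ.continuous hc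
  have i3 : Integrable (fun x => (fun s => W s * prim p s) ‖x‖ * φ x) := by
    refine (int_cc hfl' hφ.continuous.abs hc.norm).mono' ?_ ?_
    · exact (((hW.mul hf.meas).comp measurable_norm).mul hφ.continuous.measurable).aestronglyMeasurable
    · refine Eventually.of_forall fun x => ?_
      rw [norm_mul, Real.norm_eq_abs, Real.norm_eq_abs, abs_mul]
      refine mul_le_mul_of_nonneg_right ?_ (abs_nonneg _)
      calc |W ‖x‖| * |prim p ‖x‖| ≤ 1 * |prim p ‖x‖| :=
            mul_le_mul_of_nonneg_right (hW1 _) (abs_nonneg _)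
        _ = _ := one_mul _
  have e1 := polar_mul hn1 i1
  have e2 := polar_mul hn1 i2
  have e3 := polar_mul (F := fun s => W s * prim p s) (G := φ) hn1 i3
  have e := he (sm φ) (sm_contDiff hφ hc) (sm_compact hc)
  have e1' : ∫ x, fderiv ℝ φ x ((p ‖x‖ / ‖x‖) • x)
      = ∫ x : Y n, p ‖x‖ * fderiv ℝ φ x (‖x‖⁻¹ • x) := by
    refine integral_congr_ae (Eventually.of_forall fun x => ?_)
    simp only [map_smul, smul_eq_mul]
    ring
  have e1'' : ∫ s in Ioi (0:ℝ), s ^ (n - 1) * (p s * sm (fun x => fderiv ℝ φ x (‖x‖⁻¹ • x)) s)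
      = ∫ s in Ioi (0:ℝ), s ^ (n - 1) * (p s * deriv (sm φ) s) := by
    refine setIntegral_congr_fun measurableSet_Ioi fun s hs => ?_
    have hs0 : 0 < s := hs
    congr 2
    rw [sm_deriv hφ hc]
    unfold sm
    refine integral_congr_ae (Eventually.of_forall fun θ => ?_)
    have hθ : ‖s • (θ : Y n)‖ = s := by
      rw [norm_smul, Real.norm_of_nonneg hs0.le]
      simp
    simp only [hθ, smul_smul, inv_mul_cancel₀ hs0.ne', one_smul]
  rw [e1', e1, e1'', e2, e]
  congr 1
  exact e3.symm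

end Pool.Agent.X96.SS
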