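import Pool.Agent.X96.SS.A3
import Pool.Agent.X96.SS.T3

set_option autoImplicit false

open MeasureTheory Metric Set Filter Topology
open scoped ENNReal NNReal ContDiff InnerProductSpace

namespace Pool.Agent.X96.SS

lemma quad_zero {b c : ℝ} (h : ∀ e : ℝ, 0 ≤ 2 * e * b + e ^ 2 * c) : b = 0 := by
  by_contra hb
  have hb2 : 0 < b ^ 2 := by positivity
  have hc : 0 < |c| + 1 := by positivity
  have h1 := h (-b / (|c| + 1))
  have e : 2 * (-b / (|c| + 1)) * b + (-b / (|c| + 1)) ^ 2 * c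
      = b ^ 2 * (c - 2 * (|c| + 1)) / (|c| + 1) ^ 2 := by
    field_simp
    ring
  rw [e] at h1
  have h2 : b ^ 2 * (c - 2 * (|c| + 1)) < 0 := by
    apply mul_neg_of_pos_of_neg hb2
    have := le_abs_self c
    have := abs_nonneg c
    linarith
  have h3 := div_neg_of_neg_of_pos h2 (by positivity : 0 < (|c| + 1) ^ 2)
  linarith

lemma cross_int {n : ℕ} {W u v : ℝ → ℝ} (mW : Measurable W) (mu : Measurable u) (mv : Measurable v)
    (hW : ∀ s, |W s| ≤ 1) (hu : FI n u) (hv : FI n v) :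
    IntegrableOn (fun s => s ^ (n - 1) * (W s * u s * v s)) (Ioi 0) := by
  refine Integrable.mono' (Integrable.add hu hv) ?_ ?_
  · exact ((measurable_id.pow_const _).mul ((mW.mul mu).mul mv)).aestronglyMeasurable
  · filter_upwards [ae_restrict_mem measurableSet_Ioi] with s hs
    have hs0 : (0:ℝ) < s := hs
    rw [norm_mul, Real.norm_of_nonneg (by positivity : 0 ≤ s ^ (n - 1)), Real.norm_eq_abs]
    have h1 : |W s * u s * v s| ≤ u s ^ 2 + v s ^ 2 := by
      rw [abs_mul, abs_mul]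
      have h2 : |W s| * |u s| * |v s| ≤ 1 * |u s| * |v s| := by
        gcongr
        exact hW s
      have h3 : |u s| * |v s| ≤ u s ^ 2 + v s ^ 2 := by
        rw [← sq_abs (u s), ← sq_abs (v s)]
        nlinarith [sq_nonneg (|u s| - |v s|), sq_nonneg (|u s|), sq_nonneg (|v s|)]
      linarith
    calc s ^ (n - 1) * |W s * u s * v s| ≤ s ^ (n - 1) * (u s ^ 2 + v s ^ 2) :=
          mul_le_mul_of_nonneg_left h1 (by positivity)
      _ = _ := by simp only [Pi.add_apply]; ring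

/-- weighted bilinear form -/
noncomputable def qq (n : ℕ) (W u v : ℝ → ℝ) : ℝ :=
  ∫ s in Ioi (0:ℝ), s ^ (n - 1) * (W s * u s * v s)

lemma qq_expand {n : ℕ} {W u v : ℝ → ℝ} (mW : Measurable W) (mu : Measurable u) (mv : Measurable v)
    (hW : ∀ s, |W s| ≤ 1) (hu : FI n u) (hv : FI n v) (e : ℝ) :
    qq n W (fun s => u s + e * v s) (fun s => u s + e * v s)
      = qq n W u u + 2 * e * qq n W u v + e ^ 2 * qq n W v v := by
  unfold qq
  have i1 := cross_int mW mu mu hW hu hu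
  have i2 := cross_int mW mu mv hW hu hv
  have i3 := cross_int mW mv mv hW hv hv
  rw [← integral_const_mul, ← integral_const_mul]
  have i4 := integral_add (i1.add (i2.const_mul (2 * e))) (i3.const_mul (e ^ 2))
  have i5 := integral_add i1 (i2.const_mul (2 * e))
  simp only [Pi.add_apply] at i4 i5
  rw [← i5, ← i4]
  refine integral_congr_ae (Eventually.of_forall fun s => ?_)
  simp only
  ring

lemma NN_eq (n : ℕ) (l : ℝ) (P : L2) :
    NN n l P = ‖P‖ ^ 2 + l * qq n (fun _ => 1) (fP n P) (fP n P) := by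
  have h : (fun s : ℝ => s ^ (n - 1) * fP n P s ^ 2)
      = fun s : ℝ => s ^ (n - 1) * ((fun _ => 1) s * fP n P s * fP n P s) := by
    funext s; ring
  unfold NN qq
  rw [h]

lemma qq_congr {n : ℕ} {W u v u' v' : ℝ → ℝ} (h : ∀ s, 0 < s → u s = u' s)
    (h' : ∀ s, 0 < s → v s = v' s) : qq n W u v = qq n W u' v' := by
  unfold qq
  refine setIntegral_congr_fun measurableSet_Ioi fun s hs => ?_
  rw [h s hs, h' s hs]

lemma FI_add {n : ℕ} {u v : ℝ → ℝ} (mu : Measurable u) (mv : Measurable v) (hu : FI n u)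
    (hv : FI n v) (e : ℝ) : FI n (fun s => u s + e * v s) := by
  have m1 : Measurable (fun _ : ℝ => (1:ℝ)) := measurable_const
  have i1 := cross_int m1 mu mu (by simp) hu hu
  have i2 := cross_int m1 mu mv (by simp) hu hv
  have i3 := cross_int m1 mv mv (by simp) hv hv
  have i4 := (i1.add (i2.const_mul (2 * e))).add (i3.const_mul (e ^ 2))
  refine i4.congr (Eventually.of_forall fun s => ?_)
  simp only [Pi.add_apply]
  ring

lemma FI_fP_add {n : ℕ} (hn : 3 ≤ n) {P S : L2} (hP : FI n (fP n P)) (hS : FI n (fP n S)) (e : ℝ) :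
    FI n (fP n (P + e • S)) := by
  refine (FI_add (fP_meas n P) (fP_meas n S) hP hS e).congr_fun (fun s hs => ?_) measurableSet_Ioi
  simp only
  rw [fP_add hn P S e hs]

lemma NN_expand {n : ℕ} (hn : 3 ≤ n) (l : ℝ) {P S : L2} (hP : FI n (fP n P))
    (hS : FI n (fP n S)) (e : ℝ) :
    NN n l (P + e • S) = NN n l P + 2 * e * (⟪P, S⟫_ℝ + l * qq n (fun _ => 1) (fP n P) (fP n S))
      + e ^ 2 * NN n l S := by
  rw [NN_eq, NN_eq, NN_eq]
  have h1 : qq n (fun _ => 1) (fP n (P + e • S)) (fP n (P + e • S))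
      = qq n (fun _ => 1) (fun s => fP n P s + e * fP n S s) (fun s => fP n P s + e * fP n S s) :=
    qq_congr (fun s hs => fP_add hn P S e hs) (fun s hs => fP_add hn P S e hs)
  rw [h1, qq_expand measurable_const (fP_meas n P) (fP_meas n S) (by simp) hP hS e,
    norm_add_sq_real, norm_smul, inner_smul_right, mul_pow, Real.norm_eq_abs, sq_abs]
  ring

lemma adm_smul {n : ℕ} (hn : 3 ≤ n) {l : ℝ} (hl : 0 < l) {R : L2} (hR : FI n (fP n R)) {δ : ℝ}
    (hδ : 0 < δ) : Adm n l ((√(NN n l R + δ))⁻¹ • R) ∧ 0 < NN n l R + δ := by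
  have hN : 0 ≤ NN n l R := by
    unfold NN
    have := mul_nonneg hl.le (sqint_nonneg n (fP n R))
    positivity
  have hpos : 0 < NN n l R + δ := by linarith
  have h0 : (√(NN n l R + δ))⁻¹ • R = 0 + (√(NN n l R + δ))⁻¹ • R := by simp
  have h00 := adm_zero hn l
  refine ⟨⟨?_, ?_⟩, hpos⟩
  · rw [h0]
    exact FI_fP_add hn h00.1 hR _
  · rw [h0, NN_expand hn l h00.1 hR]
    have e1 : qq n (fun _ => 1) (fP n 0) (fP n R) = 0 := by
      unfold qq
      rw [setIntegral_congr_fun (g := fun _ => (0:ℝ)) measurableSet_Ioi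
        (fun s hs => by simp only; rw [fP_zero hn hs]; ring)]
      simp
    have e2 : NN n l 0 = 0 := by
      unfold NN
      rw [setIntegral_congr_fun (g := fun _ => (0:ℝ)) measurableSet_Ioi
        (fun s hs => by simp only; rw [fP_zero hn hs]; ring)]
      simp
    rw [e1, e2, inner_zero_left, inv_pow, Real.sq_sqrt hpos.le]
    simp only [mul_zero, add_zero, zero_add]
    rw [inv_mul_le_iff₀ hpos]
    linarith

lemma qq_smul {n : ℕ} (hn : 3 ≤ n) (W : ℝ → ℝ) (R : L2) (c : ℝ) :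
    qq n W (fP n (c • R)) (fP n (c • R)) = c ^ 2 * qq n W (fP n R) (fP n R) := by
  unfold qq
  rw [← integral_const_mul]
  refine setIntegral_congr_fun measurableSet_Ioi fun s hs => ?_
  rw [fP_smul hn R c hs]
  ring

lemma FI_tst {n : ℕ} {ψ : ℝ → ℝ} (hψ : ContDiff ℝ 1 ψ) (hc : HasCompactSupport ψ) :
    FI n (fP n (tst n ψ hψ hc)) := by
  have h : Integrable (fun s : ℝ => s ^ (n - 1) * ψ s ^ 2) := by
    refine Continuous.integrable_of_hasCompactSupport
      ((continuous_pow _).mul (hψ.continuous.pow 2)) ?_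
    have : HasCompactSupport (fun s => ψ s ^ 2) := by
      have h2 : (fun s => ψ s ^ 2) = ψ * ψ := by
        funext s; simp [sq]
      rw [h2]
      exact hc.mul_left (f := ψ)
    exact this.mul_left
  refine h.integrableOn.congr_fun (fun s hs => ?_) measurableSet_Ioi
  simp only
  rw [fP_tst hψ hc hs]

theorem not_zero {n : ℕ} (hn : 3 ≤ n) {l : ℝ} (hl : 0 < l) {P Q : L2} (hP : Adm n l P)
    (hQ : FI n (fP n Q)) (hmax : ∀ R, Adm n l R → Val n R Q ≤ Val n P Q) :
    ¬ ∀ᵐ s ∂(volume.restrict (Ioi (0:ℝ))), fP n P s = 0 := by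
  intro h0
  let b : ContDiffBump (0:ℝ) := ⟨1, 2, one_pos, one_lt_two⟩
  have hψ : ContDiff ℝ 1 (b : ℝ → ℝ) := b.contDiff
  have hc : HasCompactSupport (b : ℝ → ℝ) := b.hasCompactSupport
  have hF := FI_tst (n := n) hψ hc
  obtain ⟨hA, hpos⟩ := adm_smul hn hl hF one_pos
  obtain ⟨c, hcd⟩ : ∃ c : ℝ, c = (√(NN n l (tst n b hψ hc) + 1))⁻¹ := ⟨_, rfl⟩
  have hc0 : 0 < c := by rw [hcd]; exact inv_pos.mpr (Real.sqrt_pos.mpr hpos)
  rw [← hcd] at hA
  have h1 := hmax _ hA
  have i1 := gz_int (fP_meas n _) (fP_meas n Q) hA.1 hQ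
  have i2 := gz_int (fP_meas n P) (fP_meas n Q) hP.1 hQ
  have h2 : ∫ s in Ioi (0:ℝ), (s ^ (n - 1) * gz (fP n (c • tst n b hψ hc) s ^ 2 + fP n Q s ^ 2)
      - s ^ (n - 1) * gz (fP n P s ^ 2 + fP n Q s ^ 2)) ≤ 0 := by
    rw [integral_sub i1 i2]
    unfold Val at h1
    linarith
  have hnn : 0 ≤ᵐ[volume.restrict (Ioi (0:ℝ))] fun s =>
      (s ^ (n - 1) * gz (fP n (c • tst n b hψ hc) s ^ 2 + fP n Q s ^ 2)
      - s ^ (n - 1) * gz (fP n P s ^ 2 + fP n Q s ^ 2)) := by
    filter_upwards [h0, ae_restrict_mem measurableSet_Ioi] with s hs hs1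
    have hs0 : (0:ℝ) < s := hs1
    simp only [Pi.zero_apply]
    rw [hs, ← mul_sub]
    refine mul_nonneg (by positivity) (sub_nonneg.mpr ?_)
    rcases (sq_nonneg (fP n (c • tst n b hψ hc) s)).eq_or_lt with h | h
    · rw [← h]; simp
    · exact (gz_strict (by positivity) (by nlinarith)).le
  have h3 : ∫ s in Ioi (0:ℝ), (s ^ (n - 1) * gz (fP n (c • tst n b hψ hc) s ^ 2 + fP n Q s ^ 2)
      - s ^ (n - 1) * gz (fP n P s ^ 2 + fP n Q s ^ 2)) = 0 :=
    le_antisymm h2 (integral_nonneg_of_ae hnn)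
  have h4 := (integral_eq_zero_iff_of_nonneg_ae hnn (i1.sub i2)).mp h3
  have h5 : ∀ᵐ s ∂(volume.restrict (Ioi (0:ℝ))), s ∉ Ioo (0:ℝ) 1 := by
    filter_upwards [h4, h0, ae_restrict_mem measurableSet_Ioi] with s hs hs2 hs1 hmem
    have hs0 : (0:ℝ) < s := hs1
    simp only [Pi.zero_apply] at hs
    rw [hs2, fP_smul hn _ _ hs0, fP_tst hψ hc hs0] at hs
    have hb : (b : ℝ → ℝ) s = 1 := by
      apply b.one_of_mem_closedBall
      rw [mem_closedBall, dist_zero_right, Real.norm_eq_abs, abs_of_pos hs0]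
      exact hmem.2.le
    rw [hb] at hs
    have h6 : gz (0 ^ 2 + fP n Q s ^ 2) < gz ((c * 1) ^ 2 + fP n Q s ^ 2) :=
      gz_strict (by positivity) (by nlinarith [mul_pos hc0 hc0])
    have h7 : 0 < s ^ (n - 1) := by positivity
    nlinarith [mul_pos h7 (sub_pos.mpr h6)]
  have h8 : (volume.restrict (Ioi (0:ℝ))) (Ioo (0:ℝ) 1) = 0 := by
    have h9 := h5
    rw [ae_iff] at h9
    have h10 : {a : ℝ | ¬ a ∉ Ioo (0:ℝ) 1} = Ioo 0 1 := by
      ext a
      rw [mem_setOf_eq, not_not]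
    rw [h10] at h9
    exact h9
  rw [Measure.restrict_apply measurableSet_Ioo, inter_eq_left.mpr Ioo_subset_Ioi_self] at h8
  simp at h8

theorem EL {n : ℕ} (hn : 3 ≤ n) {l : ℝ} (hl : 0 < l) {P Q : L2} (hP : Adm n l P)
    (hQ : FI n (fP n Q)) (hmax : ∀ R, Adm n l R → Val n R Q ≤ Val n P Q) {W : ℝ → ℝ}
    (hWd : W = fun s => (fP n P s ^ 2 + fP n Q s ^ 2) / (1 + (fP n P s ^ 2 + fP n Q s ^ 2))) :
    ∃ c : ℝ, 0 < c ∧ RadEq n (pp n P) l c W := by
  have mu := fP_meas n P
  have mv := fP_meas n Q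
  have mW : Measurable W := by
    rw [hWd]
    exact ((mu.pow_const 2).add (mv.pow_const 2)).div
      (measurable_const.add ((mu.pow_const 2).add (mv.pow_const 2)))
  have hW0 : ∀ s, 0 ≤ W s := by intro s; rw [hWd]; positivity
  have hW1 : ∀ s, |W s| ≤ 1 := by
    intro s
    rw [abs_of_nonneg (hW0 s), hWd]
    exact div_le_one_of_le₀ (by linarith) (by positivity)
  obtain ⟨μ, hμ⟩ : ∃ μ : ℝ, μ = qq n W (fP n P) (fP n P) := ⟨_, rfl⟩
  have i4 := cross_int mW mu mu hW1 hP.1 hP.1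
  have s1 : ∀ R, Adm n l R → qq n W (fP n R) (fP n R) ≤ μ := by
    intro R hR
    have h1 := hmax R hR
    have i1 := gz_int (fP_meas n R) mv hR.1 hQ
    have i2 := gz_int mu mv hP.1 hQ
    have i3 := cross_int mW (fP_meas n R) (fP_meas n R) hW1 hR.1 hR.1
    have h2 : qq n W (fP n R) (fP n R) - qq n W (fP n P) (fP n P) ≤ Val n R Q - Val n P Q := by
      unfold qq Val
      rw [← integral_sub i3 i4, ← integral_sub i1 i2]
      refine setIntegral_mono_on (i3.sub i4) (i1.sub i2) measurableSet_Ioi fun s hs => ?_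
      have hs0 : (0:ℝ) < s := hs
      have h3 := gz_conv (a := fP n P s ^ 2 + fP n Q s ^ 2) (b := fP n R s ^ 2 + fP n Q s ^ 2)
        (by positivity) (by positivity)
      have h4 := mul_le_mul_of_nonneg_left h3 (by positivity : 0 ≤ s ^ (n - 1))
      have h5 : W s = (fP n P s ^ 2 + fP n Q s ^ 2) / (1 + (fP n P s ^ 2 + fP n Q s ^ 2)) := by
        rw [hWd]
      calc s ^ (n - 1) * (W s * fP n R s * fP n R s) - s ^ (n - 1) * (W s * fP n P s * fP n P s)
          = s ^ (n - 1) * (W s * (fP n R s ^ 2 + fP n Q s ^ 2 - (fP n P s ^ 2 + fP n Q s ^ 2))) := by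
            ring
        _ ≤ s ^ (n - 1) * (gz (fP n R s ^ 2 + fP n Q s ^ 2) - gz (fP n P s ^ 2 + fP n Q s ^ 2)) := by
            rw [h5]; exact h4
        _ = _ := by ring
    rw [hμ]; linarith
  have hμ0 : 0 ≤ μ := by
    rw [hμ]
    unfold qq
    refine setIntegral_nonneg measurableSet_Ioi fun s hs => ?_
    have hs0 : (0:ℝ) < s := hs
    have := hW0 s
    rw [mul_assoc (W s)]
    exact mul_nonneg (by positivity) (mul_nonneg this (mul_self_nonneg _))
  have s2 : ∀ R, FI n (fP n R) → qq n W (fP n R) (fP n R) ≤ μ * NN n l R := by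
    intro R hR
    apply le_of_forall_pos_le_add
    intro ε hε
    obtain ⟨hA, hpos⟩ := adm_smul hn hl hR (δ := ε / (μ + 1)) (by positivity)
    have h1 := s1 _ hA
    rw [qq_smul hn, inv_pow, Real.sq_sqrt hpos.le, inv_mul_le_iff₀ hpos] at h1
    have h2 : μ * (ε / (μ + 1)) ≤ ε := by
      rw [mul_div_assoc', div_le_iff₀ (by linarith)]
      nlinarith
    nlinarith
  have hne := not_zero hn hl hP hQ hmax
  have hμp : 0 < μ := by
    refine lt_of_le_of_ne hμ0 fun h => hne ?_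
    have hnn : 0 ≤ᵐ[volume.restrict (Ioi (0:ℝ))] fun s =>
        s ^ (n - 1) * (W s * fP n P s * fP n P s) := by
      filter_upwards [ae_restrict_mem measurableSet_Ioi] with s hs
      have hs0 : (0:ℝ) < s := hs
      have := hW0 s
      simp only [Pi.zero_apply]
      rw [mul_assoc (W s)]
      exact mul_nonneg (by positivity) (mul_nonneg this (mul_self_nonneg _))
    have h1 := (integral_eq_zero_iff_of_nonneg_ae hnn i4).mp (by rw [← h] at hμ; exact hμ.symm)
    filter_upwards [h1, ae_restrict_mem measurableSet_Ioi] with s hs hs1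
    have hs0 : (0:ℝ) < s := hs1
    by_contra hu
    have hu2 : 0 < fP n P s ^ 2 := by positivity
    have hWp : 0 < W s := by
      rw [hWd]
      have : 0 ≤ fP n Q s ^ 2 := sq_nonneg _
      exact div_pos (by linarith) (by linarith)
    simp only [Pi.zero_apply] at hs
    have : 0 < s ^ (n - 1) * (W s * fP n P s * fP n P s) := by
      have e : s ^ (n - 1) * (W s * fP n P s * fP n P s) = s ^ (n - 1) * (W s * fP n P s ^ 2) := by
        ring
      rw [e]; positivity
    linarith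
  have s4 : NN n l P = 1 := by
    have h1 := s2 P hP.1
    rw [← hμ] at h1
    have h2 := hP.2
    have h3 : 1 ≤ NN n l P := by
      by_contra hcon
      push Not at hcon
      nlinarith
    linarith
  refine ⟨1 / μ, by positivity, fun ψ hψ hc => ?_⟩
  obtain ⟨S, hS⟩ : ∃ S : L2, S = tst n ψ hψ hc := ⟨_, rfl⟩
  have hSF : FI n (fP n S) := by rw [hS]; exact FI_tst hψ hc
  have h1 : ∀ e : ℝ, 0 ≤ 2 * e * (μ * (⟪P, S⟫_ℝ + l * qq n (fun _ => 1) (fP n P) (fP n S))
      - qq n W (fP n P) (fP n S)) + e ^ 2 * (μ * NN n l S - qq n W (fP n S) (fP n S)) := by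
    intro e
    have h2 := s2 (P + e • S) (FI_fP_add hn hP.1 hSF e)
    have h3 : qq n W (fP n (P + e • S)) (fP n (P + e • S))
        = qq n W (fun s => fP n P s + e * fP n S s) (fun s => fP n P s + e * fP n S s) :=
      qq_congr (fun s hs => fP_add hn P S e hs) (fun s hs => fP_add hn P S e hs)
    rw [h3, qq_expand mW mu (fP_meas n S) hW1 hP.1 hSF e, NN_expand hn l hP.1 hSF e, s4,
      ← hμ] at h2
    nlinarith
  have h2 := quad_zero h1
  rw [hS, inner_tst] at h2
  have e1 : qq n (fun _ => 1) (fP n P) (fP n (tst n ψ hψ hc))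
      = ∫ s in Ioi (0:ℝ), s ^ (n - 1) * (prim (pp n P) s * ψ s) := by
    unfold qq
    refine setIntegral_congr_fun measurableSet_Ioi fun s hs => ?_
    simp only
    rw [fP_tst hψ hc hs, one_mul]
    rfl
  have e2 : qq n W (fP n P) (fP n (tst n ψ hψ hc))
      = ∫ s in Ioi (0:ℝ), s ^ (n - 1) * (W s * prim (pp n P) s * ψ s) := by
    unfold qq
    refine setIntegral_congr_fun measurableSet_Ioi fun s hs => ?_
    rw [fP_tst hψ hc hs]
    rfl
  rw [e1, e2] at h2
  have h3 : ∀ a b : ℝ, μ * a - b = 0 → a = 1 / μ * b := by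
    intro a b hab
    field_simp
    linarith
  exact h3 _ _ h2

end Pool.Agent.X96.SS
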