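import Mathlib
import Pool.Agent.H248.BH.B02

set_option autoImplicit false

open MeasureTheory Metric Set Filter Topology
open scoped ENNReal NNReal ContDiff

/-! Weak gradient of radial functions `f(|x|)`, `f(r) = -∫_r^∞ p`. -/

namespace Pool.Agent.X96.SS

abbrev Y (n : ℕ) := EuclideanSpace ℝ (Fin n)

/-- the primitive vanishing at infinity -/
noncomputable def prim (p : ℝ → ℝ) (r : ℝ) : ℝ := -∫ t in Ioi r, p t

lemma prim_sub {p : ℝ → ℝ} (hp : Integrable p) (a b : ℝ) :
    prim p b - prim p a = ∫ t in a..b, p t := by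
  unfold prim
  have h := intervalIntegral.integral_Iic_sub_Iic (μ := volume) (f := p) (a := a) (b := b)
    hp.integrableOn hp.integrableOn
  have h1 := integral_add_compl (μ := volume) (f := p) (measurableSet_Iic (a := a)) hp
  have h2 := integral_add_compl (μ := volume) (f := p) (measurableSet_Iic (a := b)) hp
  rw [compl_Iic] at h1 h2
  linarith

lemma prim_lip {p : ℝ → ℝ} (hp : Integrable p) {C : ℝ≥0} (hC : ∀ t, |p t| ≤ C) :
    LipschitzWith C (prim p) := by
  refine LipschitzWith.of_dist_le_mul fun a b => ?_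
  rw [dist_comm, Real.dist_eq, prim_sub hp a b]
  have h := intervalIntegral.norm_integral_le_of_norm_le_const (a := a) (b := b) (f := p)
    (C := (C : ℝ)) (fun x _ => by simpa using hC x)
  rw [Real.norm_eq_abs] at h
  rw [Real.dist_eq, abs_sub_comm a b]
  exact h

lemma prim_deriv {p : ℝ → ℝ} (hp : Integrable p) : ∀ᵐ r, HasDerivAt (prim p) (p r) r := by
  filter_upwards [LocallyIntegrable.ae_hasDerivAt_integral hp.locallyIntegrable] with r hr
  have h := (hr 0).add_const (prim p 0)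
  refine h.congr_of_eventuallyEq (Eventually.of_forall fun x => ?_)
  have := prim_sub hp 0 x
  simp only
  linarith

lemma norm_line {n : ℕ} {x : Y n} (hx : x ≠ 0) (v : Y n) :
    HasDerivAt (fun t : ℝ => ‖x + t • v‖) (inner ℝ x v / ‖x‖) 0 := by
  have h1 : HasDerivAt (fun t : ℝ => x + t • v) v 0 := by
    simpa using ((hasDerivAt_id (0:ℝ)).smul_const v).const_add x
  have h2 := h1.norm_sq
  have hx' : 0 < ‖x‖ := norm_pos_iff.mpr hx
  have h3 := h2.sqrt (by simp [hx])
  refine (h3.congr_of_eventuallyEq (Eventually.of_forall fun t => ?_)).congr_deriv ?_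
  · simp
  · simp only [zero_smul, add_zero, norm_nonneg, Real.sqrt_sq]
    field_simp

lemma wg_lip {n : ℕ} (hn : 1 ≤ n) {p : ℝ → ℝ} (hp : Integrable p) {C : ℝ≥0} (hC : ∀ t, |p t| ≤ C)
    {φ : Y n → ℝ} (hφ : ContDiff ℝ ∞ φ) (hc : HasCompactSupport φ) (v : Y n) :
    ∫ x, prim p ‖x‖ * fderiv ℝ φ x v = - ∫ x, p ‖x‖ * (inner ℝ x v / ‖x‖) * φ x := by
  have hL : LipschitzWith C (fun x : Y n => prim p ‖x‖) := by
    refine LipschitzWith.of_dist_le_mul fun a b => ?_
    refine ((prim_lip hp hC).dist_le_mul _ _).trans ?_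
    refine mul_le_mul_of_nonneg_left ?_ C.2
    rw [Real.dist_eq, dist_eq_norm]
    exact abs_norm_sub_norm_le a b
  obtain ⟨D, hD⟩ := ContDiff.lipschitzWith_of_hasCompactSupport (n := ∞) (𝕂 := ℝ) hc hφ (by simp)
  have h := LipschitzWith.integral_lineDeriv_mul_eq (μ := (volume : Measure (Y n))) hL hD hc v
  have e1 : ∀ x, lineDeriv ℝ φ x (-v) = - fderiv ℝ φ x v := by
    intro x
    rw [((hφ.differentiable (by simp)) x).lineDeriv_eq_fderiv]
    simp
  have hne : ∀ᵐ x : Y n, x ≠ 0 := by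
    have : Nonempty (Fin n) := ⟨⟨0, hn⟩⟩
    have : Nontrivial (Y n) := inferInstance
    exact compl_mem_ae_iff.mpr (measure_singleton (0 : Y n))
  have e2 : ∀ᵐ x : Y n, lineDeriv ℝ (fun x : Y n => prim p ‖x‖) x v
      = p ‖x‖ * (inner ℝ x v / ‖x‖) := by
    have h3 : ∀ᵐ r ∂(volume.restrict (Ioi (0:ℝ))), HasDerivAt (prim p) (p r) r :=
      ae_restrict_of_ae (prim_deriv hp)
    have h4 := H248.BH.ae_norm (n := n) hn h3
    filter_upwards [h4, hne] with x hx hx0
    have h5 := norm_line hx0 v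
    have h6 : HasDerivAt (prim p) (p ‖x‖) (‖x + (0:ℝ) • v‖) := by simpa using hx
    have h7 := h6.comp (0:ℝ) h5
    exact h7.deriv
  have e3 : ∫ x, lineDeriv ℝ (fun x : Y n => prim p ‖x‖) x v * φ x
      = ∫ x, p ‖x‖ * (inner ℝ x v / ‖x‖) * φ x := by
    apply integral_congr_ae
    filter_upwards [e2] with x hx
    rw [hx]
  have e4 : ∫ x, lineDeriv ℝ φ x (-v) * prim p ‖x‖ = - ∫ x, prim p ‖x‖ * fderiv ℝ φ x v := by
    rw [← integral_neg]
    apply integral_congr_ae
    filter_upwards with x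
    rw [e1]; ring
  rw [e3, e4] at h
  linarith

end Pool.Agent.X96.SS
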