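import Pool.Agent.X96.SS.T1

set_option autoImplicit false

open MeasureTheory Metric Set Filter Topology
open scoped ENNReal NNReal ContDiff

namespace Pool.Agent.X96.SS

lemma tail_int {n : ℕ} (hn : 3 ≤ n) {r : ℝ} (hr : 0 < r) :
    IntegrableOn (fun t : ℝ => (t ^ (n - 1))⁻¹) (Ioi r) ∧
      ∫ t in Ioi r, (t ^ (n - 1))⁻¹ ≤ (r ^ (n - 2))⁻¹ := by
  have ha : -((n - 1 : ℕ) : ℝ) < -1 := by
    have : (2:ℝ) ≤ ((n - 1 : ℕ) : ℝ) := by exact_mod_cast (by omega : 2 ≤ n - 1)
    linarith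
  have he : ∀ t ∈ Ioi r, t ^ (-((n - 1 : ℕ) : ℝ)) = (t ^ (n - 1))⁻¹ := by
    intro t ht
    have : 0 < t := hr.trans ht
    rw [Real.rpow_neg this.le, Real.rpow_natCast]
  refine ⟨(integrableOn_Ioi_rpow_of_lt ha hr).congr_fun he measurableSet_Ioi, ?_⟩
  rw [← setIntegral_congr_fun measurableSet_Ioi he, integral_Ioi_rpow_of_lt ha hr]
  have e1 : -((n - 1 : ℕ) : ℝ) + 1 = -((n - 2 : ℕ) : ℝ) := by
    have h1 : ((n - 1 : ℕ) : ℝ) = ((n - 2 : ℕ) : ℝ) + 1 := by
      have : n - 1 = n - 2 + 1 := by omega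
      rw [this]; push_cast; ring
    rw [h1]; ring
  rw [e1, Real.rpow_neg hr.le, Real.rpow_natCast]
  have h2 : (1:ℝ) ≤ ((n - 2 : ℕ) : ℝ) := by exact_mod_cast (by omega : 1 ≤ n - 2)
  have h3 : 0 < (r ^ (n - 2))⁻¹ := by positivity
  rw [neg_div_neg_eq]
  exact div_le_self h3.le h2

lemma amgm {w p : ℝ} (hw : 0 < w) : |p| ≤ w * p ^ 2 + w⁻¹ := by
  have h : 0 ≤ (w * |p|) ^ 2 + 1 - w * |p| := by nlinarith [sq_nonneg (w * |p| - 1)]
  have h2 : w * p ^ 2 + w⁻¹ - |p| = ((w * |p|) ^ 2 + 1 - w * |p|) / w := by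
    field_simp
    rw [sq_abs]
  have h3 := div_nonneg h hw.le
  linarith

/-- data -/
structure PD (n : ℕ) (p : ℝ → ℝ) : Prop where
  meas : Measurable p
  int : IntegrableOn (fun t => t ^ (n - 1) * p t ^ 2) (Ioi 0)

/-- total -/
noncomputable def KK (n : ℕ) (p : ℝ → ℝ) : ℝ := ∫ t in Ioi 0, t ^ (n - 1) * p t ^ 2

lemma PD.K_nonneg {n : ℕ} {p : ℝ → ℝ} : 0 ≤ KK n p := by
  refine setIntegral_nonneg measurableSet_Ioi fun t ht => ?_
  have : 0 < t := ht
  positivity

lemma PD.intOn {n : ℕ} (hn : 3 ≤ n) {p : ℝ → ℝ} (h : PD n p) {r : ℝ} (hr : 0 < r) :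
    IntegrableOn p (Ioi r) ∧ ∫ t in Ioi r, |p t| ≤ KK n p + (r ^ (n - 2))⁻¹ := by
  obtain ⟨h1, h2⟩ := tail_int hn hr
  have h3 : IntegrableOn (fun t => t ^ (n - 1) * p t ^ 2) (Ioi r) :=
    h.int.mono_set (Ioi_subset_Ioi hr.le)
  have h4 : ∀ t ∈ Ioi r, |p t| ≤ t ^ (n - 1) * p t ^ 2 + (t ^ (n - 1))⁻¹ := by
    intro t ht
    have : 0 < t := hr.trans ht
    exact amgm (by positivity)
  have h5 : IntegrableOn p (Ioi r) := by
    refine Integrable.mono' (h3.add h1) h.meas.aestronglyMeasurable ?_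
    filter_upwards [ae_restrict_mem measurableSet_Ioi] with t ht
    exact h4 t ht
  refine ⟨h5, ?_⟩
  calc ∫ t in Ioi r, |p t| ≤ ∫ t in Ioi r, (t ^ (n - 1) * p t ^ 2 + (t ^ (n - 1))⁻¹) :=
        setIntegral_mono_on h5.abs (h3.add h1) measurableSet_Ioi h4
    _ = (∫ t in Ioi r, t ^ (n - 1) * p t ^ 2) + ∫ t in Ioi r, (t ^ (n - 1))⁻¹ :=
        integral_add h3 h1
    _ ≤ _ := by
        refine add_le_add ?_ h2
        refine setIntegral_mono_set h.int ?_ (Ioi_subset_Ioi hr.le).eventuallyLE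
        filter_upwards [ae_restrict_mem measurableSet_Ioi] with t ht
        have : 0 < t := ht
        simp only [Pi.zero_apply]
        positivity

lemma finrankY (n : ℕ) : Module.finrank ℝ (Y n) = n := finrank_euclideanSpace_fin

lemma loc_int {n : ℕ} (hn : 1 ≤ n) {G : ℝ → ℝ}
    (hG : ∀ R, 0 < R → IntegrableOn (fun y => y ^ (n - 1) * G y) (Ioo 0 R)) :
    LocallyIntegrable (fun x : Y n => G ‖x‖) := by
  have : Nonempty (Fin n) := ⟨⟨0, hn⟩⟩
  have : Nontrivial (Y n) := inferInstance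
  intro x
  refine ⟨ball 0 (‖x‖ + 1), isOpen_ball.mem_nhds (by simp), ?_⟩
  rw [integrableOn_fun_norm_addHaar (volume : Measure (Y n)) (f := G) (r := ‖x‖ + 1), finrankY]
  simpa using hG (‖x‖ + 1) (by positivity)

lemma memLp_norm {n : ℕ} (hn : 1 ≤ n) {p : ℝ → ℝ} (h : PD n p) :
    MemLp (fun x : Y n => p ‖x‖) 2 := by
  have : Nonempty (Fin n) := ⟨⟨0, hn⟩⟩
  have : Nontrivial (Y n) := inferInstance
  have hm : AEStronglyMeasurable (fun x : Y n => p ‖x‖) volume :=
    (h.meas.comp measurable_norm).aestronglyMeasurable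
  rw [memLp_two_iff_integrable_sq hm]
  rw [integrable_fun_norm_addHaar (volume : Measure (Y n)) (f := fun t => p t ^ 2), finrankY]
  simpa using h.int

lemma int_cc {n : ℕ} {F : Y n → ℝ} (hF : LocallyIntegrable F) {h : Y n → ℝ} (hc : Continuous h)
    (hs : HasCompactSupport h) : Integrable (fun x => F x * h x) := by
  have := hF.integrable_smul_left_of_hasCompactSupport hc hs
  refine this.congr (Eventually.of_forall fun x => ?_)
  simp [mul_comm]

lemma loc_GG {n : ℕ} (hn : 3 ≤ n) (K : ℝ) :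
    LocallyIntegrable (fun x : Y n => K + (‖x‖ ^ (n - 2))⁻¹) := by
  refine loc_int (by omega) (G := fun y => K + (y ^ (n - 2))⁻¹) fun R hR => ?_
  have h1 : IntegrableOn (fun y : ℝ => K * y ^ (n - 1) + y) (Ioo 0 R) :=
    (((continuous_const.mul (continuous_pow _)).add continuous_id).continuousOn.integrableOn_Icc
      (a := 0) (b := R)).mono_set Ioo_subset_Icc_self
  refine h1.congr_fun (fun y hy => ?_) measurableSet_Ioo
  have hy0 : y ≠ 0 := hy.1.ne'
  have e : n - 1 = (n - 2) + 1 := by omega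
  simp only
  rw [e, pow_succ]
  field_simp

/-- truncation set -/
def TS (p : ℝ → ℝ) (j : ℕ) : Set ℝ := {t | t ∈ Ioc (1 / ((j:ℝ) + 1)) ((j:ℝ) + 1) ∧ |p t| ≤ j}

lemma TS_meas {p : ℝ → ℝ} (hp : Measurable p) (j : ℕ) : MeasurableSet (TS p j) :=
  measurableSet_Ioc.inter (measurableSet_le hp.abs measurable_const)

/-- truncation -/
noncomputable def trp (p : ℝ → ℝ) (j : ℕ) : ℝ → ℝ := (TS p j).indicator p

lemma trp_le (p : ℝ → ℝ) (j : ℕ) (t : ℝ) : |trp p j t| ≤ |p t| := by
  unfold trp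
  by_cases h : t ∈ TS p j
  · rw [indicator_of_mem h]
  · rw [indicator_of_notMem h]; simp

lemma trp_bd (p : ℝ → ℝ) (j : ℕ) (t : ℝ) : |trp p j t| ≤ ((j : ℝ≥0) : ℝ) := by
  unfold trp
  by_cases h : t ∈ TS p j
  · rw [indicator_of_mem h]; simpa using h.2
  · rw [indicator_of_notMem h]; simp

lemma trp_int {p : ℝ → ℝ} (hp : Measurable p) (j : ℕ) : Integrable (trp p j) := by
  have h : Integrable ((Ioc (1 / ((j:ℝ) + 1)) ((j:ℝ) + 1)).indicator fun _ : ℝ => (j : ℝ)) :=
    (integrable_indicator_iff measurableSet_Ioc).mpr (integrableOn_const (by simp))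
  refine h.mono' (hp.indicator (TS_meas hp j)).aestronglyMeasurable ?_
  filter_upwards with t
  by_cases ht : t ∈ TS p j
  · rw [indicator_of_mem ht.1, Real.norm_eq_abs]
    simpa using trp_bd p j t
  · have : trp p j t = 0 := indicator_of_notMem ht _
    rw [this]
    simp only [norm_zero]
    exact indicator_nonneg (fun _ _ => Nat.cast_nonneg j) _

lemma trp_tendsto (p : ℝ → ℝ) {t : ℝ} (ht : 0 < t) :
    Tendsto (fun j => trp p j t) atTop (𝓝 (p t)) := by
  obtain ⟨N, hN⟩ := exists_nat_gt (max (max (1 / t) t) |p t|)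
  apply tendsto_const_nhds.congr'
  filter_upwards [eventually_ge_atTop N] with j hj
  have hj' : (N:ℝ) ≤ j := by exact_mod_cast hj
  have h1 : 1 / t < j := lt_of_le_of_lt ((le_max_left _ _).trans (le_max_left _ _)) (hN.trans_le hj')
  have h2 : t < j := lt_of_le_of_lt ((le_max_right _ _).trans (le_max_left _ _)) (hN.trans_le hj')
  have h3 : |p t| < j := lt_of_le_of_lt (le_max_right _ _) (hN.trans_le hj')
  have hj0 : (0:ℝ) < j := ht.trans h2
  have : t ∈ TS p j := by
    refine ⟨⟨?_, by linarith⟩, h3.le⟩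
    rw [div_lt_iff₀ (by linarith)]
    rw [div_lt_iff₀ ht] at h1
    nlinarith
  unfold trp
  rw [indicator_of_mem this]

lemma prim_trp_tendsto {n : ℕ} (hn : 3 ≤ n) {p : ℝ → ℝ} (h : PD n p) {r : ℝ} (hr : 0 < r) :
    Tendsto (fun j => prim (trp p j) r) atTop (𝓝 (prim p r)) := by
  unfold prim
  refine Tendsto.neg ?_
  refine tendsto_integral_of_dominated_convergence (fun t => |p t|) ?_ (h.intOn hn hr).1.abs ?_ ?_
  · intro j
    exact (h.meas.indicator (TS_meas h.meas j)).aestronglyMeasurable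
  · intro j
    filter_upwards with t
    exact trp_le p j t
  · filter_upwards [ae_restrict_mem measurableSet_Ioi] with t ht
    exact trp_tendsto p (hr.trans ht)

lemma prim_trp_le {n : ℕ} (hn : 3 ≤ n) {p : ℝ → ℝ} (h : PD n p) {r : ℝ} (hr : 0 < r) (j : ℕ) :
    |prim (trp p j) r| ≤ KK n p + (r ^ (n - 2))⁻¹ := by
  unfold prim
  rw [abs_neg]
  refine (abs_integral_le_integral_abs).trans (le_trans ?_ (h.intOn hn hr).2)
  exact setIntegral_mono_on (trp_int h.meas j).integrableOn.abs (h.intOn hn hr).1.abs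
    measurableSet_Ioi (fun t _ => trp_le p j t)

lemma prim_meas {p : ℝ → ℝ} (hp : Measurable p) : Measurable (prim p) := by
  have h : StronglyMeasurable (fun q : ℝ × ℝ => (Ioi q.1).indicator p q.2) := by
    apply Measurable.stronglyMeasurable
    have : (fun q : ℝ × ℝ => (Ioi q.1).indicator p q.2)
        = {q : ℝ × ℝ | q.1 < q.2}.indicator (fun q => p q.2) := by
      funext q
      by_cases hq : q.1 < q.2
      · rw [indicator_of_mem (by exact hq), indicator_of_mem (by exact hq)]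
      · rw [indicator_of_notMem (by exact hq), indicator_of_notMem (by exact hq)]
    rw [this]
    exact (hp.comp measurable_snd).indicator (measurableSet_lt measurable_fst measurable_snd)
  have h2 := (StronglyMeasurable.integral_prod_right' (ν := (volume : Measure ℝ)) h).measurable.neg
  have h3 : prim p = (-fun x => ∫ (y : ℝ), (Ioi (x, y).1).indicator p (x, y).2) := by
    funext r
    unfold prim
    simp only [Pi.neg_apply]
    rw [integral_indicator measurableSet_Ioi]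
  rw [h3]
  exact h2

theorem weak_grad {n : ℕ} (hn : 3 ≤ n) {p : ℝ → ℝ} (h : PD n p) {φ : Y n → ℝ}
    (hφ : ContDiff ℝ ∞ φ) (hc : HasCompactSupport φ) (v : Y n) :
    ∫ x, prim p ‖x‖ * fderiv ℝ φ x v = - ∫ x, p ‖x‖ * (inner ℝ x v / ‖x‖) * φ x := by
  have hn1 : 1 ≤ n := by omega
  have : Nonempty (Fin n) := ⟨⟨0, hn1⟩⟩
  have : Nontrivial (Y n) := inferInstance
  have hne : ∀ᵐ x : Y n, 0 < ‖x‖ := by
    have : ∀ᵐ x : Y n, x ≠ 0 := compl_mem_ae_iff.mpr (measure_singleton (0 : Y n))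
    filter_upwards [this] with x hx
    exact norm_pos_iff.mpr hx
  have hdc : Continuous (fun x => fderiv ℝ φ x v) :=
    (hφ.continuous_fderiv (by simp)).clm_apply continuous_const
  have hds : HasCompactSupport (fun x => fderiv ℝ φ x v) := hc.fderiv_apply (𝕜 := ℝ) v
  have L : Tendsto (fun j => ∫ x : Y n, prim (trp p j) ‖x‖ * fderiv ℝ φ x v) atTop
      (𝓝 (∫ x : Y n, prim p ‖x‖ * fderiv ℝ φ x v)) := by
    refine tendsto_integral_of_dominated_convergence
      (fun x => (KK n p + (‖x‖ ^ (n - 2))⁻¹) * |fderiv ℝ φ x v|) ?_ ?_ ?_ ?_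
    · intro j
      exact (((prim_meas (h.meas.indicator (TS_meas h.meas j))).comp
        measurable_norm).mul hdc.measurable).aestronglyMeasurable
    · exact int_cc (loc_GG hn _) hdc.abs hds.norm
    · intro j
      filter_upwards [hne] with x hx
      rw [norm_mul, Real.norm_eq_abs, Real.norm_eq_abs]
      exact mul_le_mul_of_nonneg_right (prim_trp_le hn h hx j) (abs_nonneg _)
    · filter_upwards [hne] with x hx
      exact (prim_trp_tendsto hn h hx).mul_const _
  have R : Tendsto (fun j => - ∫ x : Y n, trp p j ‖x‖ * (inner ℝ x v / ‖x‖) * φ x) atTop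
      (𝓝 (- ∫ x : Y n, p ‖x‖ * (inner ℝ x v / ‖x‖) * φ x)) := by
    refine Tendsto.neg ?_
    refine tendsto_integral_of_dominated_convergence
      (fun x => |p ‖x‖| * (‖v‖ * |φ x|)) ?_ ?_ ?_ ?_
    · intro j
      have := (h.meas.indicator (TS_meas h.meas j)).comp (measurable_norm (α := Y n))
      exact ((this.mul (by fun_prop)).mul hφ.continuous.measurable).aestronglyMeasurable
    · have hl : LocallyIntegrable (fun x : Y n => |p ‖x‖|) :=
        (memLp_norm hn1 h).norm.locallyIntegrable (by norm_num)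
      exact int_cc hl (continuous_const.mul hφ.continuous.abs) (hc.norm.mul_left)
    · intro j
      filter_upwards [hne] with x hx
      rw [norm_mul, norm_mul, Real.norm_eq_abs, Real.norm_eq_abs, Real.norm_eq_abs, mul_assoc]
      refine mul_le_mul (trp_le p j _) ?_ (by positivity) (abs_nonneg _)
      refine mul_le_mul_of_nonneg_right ?_ (abs_nonneg _)
      rw [abs_div, abs_of_pos hx, div_le_iff₀ hx, mul_comm]
      exact abs_real_inner_le_norm x v
    · filter_upwards [hne] with x hx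
      exact ((trp_tendsto p hx).mul_const _).mul_const _
  refine tendsto_nhds_unique L (R.congr fun j => ?_)
  exact (wg_lip hn1 (trp_int h.meas j) (trp_bd p j) hφ hc v).symm

end Pool.Agent.X96.SS
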